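import Pool.Agent.Helper91.PL.Defs

/-!
# MP_bae8ce_ag, module A6 : the scaling homomorphism and base change
-/

set_option autoImplicit false

namespace PL

noncomputable section

universe u

variable {F : Type u} [Field F] {G : Type u} [Field G]

/-- A value computed from any fraction with denominator not vanishing at `a`. -/
theorem a6_val_some {f : RatFunc F} {P Q : Polynomial F} {a : F}
    (hf : f = algebraMap _ (RatFunc F) P / algebraMap _ (RatFunc F) Q)
    (hQ : Q.eval a ≠ 0) : val a (some f) = some (P.eval a / Q.eval a) := by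
  have hQ0 : Q ≠ 0 := fun h => hQ (by rw [h, Polynomial.eval_zero])
  have h1 : f.num * Q = P * f.denom := (RatFunc.num_mul_eq_mul_denom_iff hQ0).2 hf
  have h2 : f.num.eval a * Q.eval a = P.eval a * f.denom.eval a := by
    rw [← Polynomial.eval_mul, h1, Polynomial.eval_mul]
  have h3 : f.denom.eval a ≠ 0 := by
    intro h
    rw [h, mul_zero] at h2
    have h4 : f.num.eval a = 0 := (mul_eq_zero.1 h2).resolve_right hQ
    obtain ⟨u, v, huv⟩ := RatFunc.isCoprime_num_denom f
    have h5 := congrArg (Polynomial.eval a) huv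
    rw [Polynomial.eval_add, Polynomial.eval_mul, Polynomial.eval_mul, h4, h,
      Polynomial.eval_one, mul_zero, mul_zero, add_zero] at h5
    exact zero_ne_one h5
  have h4 : f.num.eval a / f.denom.eval a = P.eval a / Q.eval a := by
    rw [div_eq_div_iff h3 hQ]
    exact h2
  unfold val
  simp only [h3, if_false, h4]

/-- A pole recognised from any fraction. -/
theorem a6_val_none {f : RatFunc F} {P Q : Polynomial F} {a : F}
    (hf : f = algebraMap _ (RatFunc F) P / algebraMap _ (RatFunc F) Q)
    (hQ0 : Q ≠ 0) (hQ : Q.eval a = 0) (hP : P.eval a ≠ 0) : val a (some f) = none := by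
  have h1 : f.num * Q = P * f.denom := (RatFunc.num_mul_eq_mul_denom_iff hQ0).2 hf
  have h2 : f.num.eval a * Q.eval a = P.eval a * f.denom.eval a := by
    rw [← Polynomial.eval_mul, h1, Polynomial.eval_mul]
  have h3 : f.denom.eval a = 0 := by
    rw [hQ, mul_zero] at h2
    exact (mul_eq_zero.1 h2.symm).resolve_left hP
  unfold val
  simp only [h3, if_true]

/-- General specialisation statement: `φ : F[X] → G[X]` which is compatible with evaluation. -/
theorem a6_map (φ : Polynomial F →+* Polynomial G)
    (hφ : nonZeroDivisors (Polynomial F) ≤ (nonZeroDivisors (Polynomial G)).comap φ)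
    (ρ : F →+* G) (a : F) (b : G) (h : ∀ P : Polynomial F, (φ P).eval b = ρ (P.eval a))
    (f : RatFunc F) :
    val b (some (RatFunc.mapRingHom φ hφ f)) = Option.map ρ (val a (some f)) := by
  have h0 : RatFunc.mapRingHom φ hφ f =
      algebraMap _ (RatFunc G) (φ f.num) / algebraMap _ (RatFunc G) (φ f.denom) := by
    conv_lhs => rw [← RatFunc.num_div_denom f]
    rw [RatFunc.coe_mapRingHom_eq_coe_map, RatFunc.map_apply_div]
  have hd : φ f.denom ≠ 0 := nonZeroDivisors.ne_zero
    (hφ (mem_nonZeroDivisors_iff_ne_zero.mpr (RatFunc.denom_ne_zero f)))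
  by_cases hz : f.denom.eval a = 0
  · have hn : f.num.eval a ≠ 0 := by
      intro hn
      obtain ⟨u, v, huv⟩ := RatFunc.isCoprime_num_denom f
      have h5 := congrArg (Polynomial.eval a) huv
      rw [Polynomial.eval_add, Polynomial.eval_mul, Polynomial.eval_mul, hn, hz,
        Polynomial.eval_one, mul_zero, mul_zero, add_zero] at h5
      exact zero_ne_one h5
    have h1 : val b (some (RatFunc.mapRingHom φ hφ f)) = none := by
      refine a6_val_none h0 hd ?_ ?_
      · rw [h, hz, map_zero]
      · rw [h]
        exact (map_ne_zero ρ).2 hn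
    rw [h1]
    unfold val
    simp only [hz, if_true, Option.map_none]
  · have h1 : (φ f.denom).eval b ≠ 0 := by
      rw [h]
      exact (map_ne_zero ρ).2 hz
    rw [a6_val_some h0 h1, h, h, ← map_div₀]
    unfold val
    simp only [hz, if_false, Option.map_some]

/-- There is a homomorphism `σ : F(t) → F(t)(s)`, `t ↦ s t`, such that `σ f` has value `f` at
`s = 1` and value `f(0)` at `s = 0`. -/
theorem exists_scale (F : Type u) [Field F] : ∃ σ : RatFunc F →+* RatFunc (RatFunc F),
    (∀ f, val (1 : RatFunc F) (some (σ f)) = some f) ∧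
    ∀ f, val (0 : RatFunc F) (some (σ f)) =
      Option.map (RatFunc.C : F →+* RatFunc F) (val (0 : F) (some f)) := by
  let φ : Polynomial F →+* Polynomial (RatFunc F) :=
    Polynomial.eval₂RingHom ((Polynomial.C : RatFunc F →+* Polynomial (RatFunc F)).comp
      (RatFunc.C : F →+* RatFunc F)) (Polynomial.C RatFunc.X * Polynomial.X)
  have h1 : ∀ P : Polynomial F, (φ P).eval 1 = algebraMap _ (RatFunc F) P := by
    intro P
    have : (Polynomial.evalRingHom (1 : RatFunc F)).comp φ =
        algebraMap (Polynomial F) (RatFunc F) := by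
      apply Polynomial.ringHom_ext
      · intro x
        simp [φ]
      · simp [φ]
    exact congrArg (fun g : Polynomial F →+* RatFunc F => g P) this
  have h2 : ∀ P : Polynomial F, (φ P).eval 0 = RatFunc.C (P.eval 0) := by
    intro P
    have : (Polynomial.evalRingHom (0 : RatFunc F)).comp φ =
        (RatFunc.C : F →+* RatFunc F).comp (Polynomial.evalRingHom (0 : F)) := by
      apply Polynomial.ringHom_ext
      · intro x
        simp [φ]
      · simp [φ]
    exact congrArg (fun g : Polynomial F →+* RatFunc F => g P) this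
  have hφ : nonZeroDivisors (Polynomial F) ≤
      (nonZeroDivisors (Polynomial (RatFunc F))).comap φ := by
    intro P hP
    rw [Submonoid.mem_comap, mem_nonZeroDivisors_iff_ne_zero]
    intro h0
    have h3 := h1 P
    rw [h0, Polynomial.eval_zero] at h3
    exact RatFunc.algebraMap_ne_zero (nonZeroDivisors.ne_zero hP) h3.symm
  refine ⟨RatFunc.mapRingHom φ hφ, fun f => ?_, fun f => ?_⟩
  · have h0 : RatFunc.mapRingHom φ hφ f = algebraMap _ (RatFunc (RatFunc F)) (φ f.num) /
        algebraMap _ (RatFunc (RatFunc F)) (φ f.denom) := by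
      conv_lhs => rw [← RatFunc.num_div_denom f]
      rw [RatFunc.coe_mapRingHom_eq_coe_map, RatFunc.map_apply_div]
    have h3 : (φ f.denom).eval 1 ≠ 0 := by
      rw [h1]
      exact RatFunc.algebraMap_ne_zero (RatFunc.denom_ne_zero f)
    rw [a6_val_some h0 h3, h1, h1, RatFunc.num_div_denom]
  · exact a6_map φ hφ RatFunc.C 0 0 h2 f

/-- Base change of rational functions and values. -/
theorem exists_base (σ : F →+* G) : ∃ τ : RatFunc F →+* RatFunc G,
    (∀ f, val (0 : G) (some (τ f)) = Option.map σ (val (0 : F) (some f))) ∧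
    ∀ f, val (1 : G) (some (τ f)) = Option.map σ (val (1 : F) (some f)) := by
  have hφ : nonZeroDivisors (Polynomial F) ≤
      (nonZeroDivisors (Polynomial G)).comap (Polynomial.mapRingHom σ) := by
    intro P hP
    rw [Submonoid.mem_comap, mem_nonZeroDivisors_iff_ne_zero]
    exact (Polynomial.map_ne_zero_iff σ.injective).2 (nonZeroDivisors.ne_zero hP)
  refine ⟨RatFunc.mapRingHom (Polynomial.mapRingHom σ) hφ, fun f => ?_, fun f => ?_⟩
  · refine a6_map (Polynomial.mapRingHom σ) hφ σ 0 0 (fun P => ?_) f
    rw [Polynomial.coe_mapRingHom, ← map_zero σ, Polynomial.eval_map_apply]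
  · refine a6_map (Polynomial.mapRingHom σ) hφ σ 1 1 (fun P => ?_) f
    rw [Polynomial.coe_mapRingHom, ← map_one σ, Polynomial.eval_map_apply]

end

end PL
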